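import Pool.Agent.Helper76.ND.StD

/-!
# Project ND, module Yz: residues and additive characters of `ZMod (3 ^ n)`
-/

set_option autoImplicit false

noncomputable section

namespace Pool.Agent.Helper91.ND

open Pool.Agent.Helper76.ND Finset

theorem two_hf_Yz (n : ℕ) : (2 : ZMod (3 ^ n)) * hf n = 1 := by
  have h : Nat.Coprime 2 (3 ^ n) := Nat.Coprime.pow_right _ (by norm_num)
  have := ZMod.coe_mul_inv_eq_one (n := 3 ^ n) 2 h
  simpa [hf] using this

theorem two_hf_pow_Yz (n k : ℕ) : (2 : ZMod (3 ^ n)) ^ k * hf n ^ k = 1 := by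
  rw [← mul_pow, two_hf_Yz, one_pow]

theorem pow3_ne_Yz (n : ℕ) : (3 : ℝ) ^ n ≠ 0 := by positivity

/-- integers congruent to `val x` -/
theorem val_int_Yz (n : ℕ) (x : ZMod (3 ^ n)) (k : ℤ) (h : (k : ZMod (3 ^ n)) = x) :
    ∃ m : ℤ, (k : ℝ) / 3 ^ n = (x.val : ℝ) / 3 ^ n + m := by
  have h1 : ((k - (x.val : ℤ) : ℤ) : ZMod (3 ^ n)) = 0 := by
    push_cast
    rw [h, ZMod.natCast_val, ZMod.cast_id', id, sub_self]
  rw [ZMod.intCast_zmod_eq_zero_iff_dvd] at h1
  obtain ⟨m, hm⟩ := h1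
  refine ⟨m, ?_⟩
  have h2 : (k : ℝ) = (x.val : ℝ) + 3 ^ n * m := by
    have : k = (x.val : ℤ) + ((3 ^ n : ℕ) : ℤ) * m := by linarith
    rw [this]; push_cast; ring
  rw [h2, add_div, mul_div_cancel_left₀ _ (pow3_ne_Yz n)]

theorem chi_int_Yz (n : ℕ) (x : ZMod (3 ^ n)) (k : ℤ) (h : (k : ZMod (3 ^ n)) = x) :
    ev ((k : ℝ) / 3 ^ n) = chi n x := by
  obtain ⟨m, hm⟩ := val_int_Yz n x k h
  rw [hm, ev_add_int]
  rfl

theorem ev_nat_mul_Yz (k : ℕ) (x : ℝ) : ev (k * x) = ev x ^ k := by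
  induction k with
  | zero => simp [ev_zero]
  | succ k ih =>
    rw [pow_succ, ← ih, ← ev_add]
    congr 1
    push_cast
    ring

theorem chi_ne_one_Yz (n : ℕ) (x : ZMod (3 ^ n)) (hx : x ≠ 0) : chi n x ≠ 1 := by
  intro h
  unfold chi ev at h
  rw [Complex.exp_eq_one_iff] at h
  obtain ⟨m, hm⟩ := h
  have hpi : (2 * (Real.pi : ℂ) * Complex.I) ≠ 0 := by
    simp [Real.pi_ne_zero]
  have h1 : (((x.val : ℝ) / 3 ^ n : ℝ) : ℂ) = (m : ℂ) := by
    apply mul_right_cancel₀ hpi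
    rw [← hm]
    push_cast
    ring
  have h2 : (x.val : ℝ) / 3 ^ n = (m : ℝ) := by exact_mod_cast h1
  have h3 : (x.val : ℝ) = 3 ^ n * m := by
    rw [← h2]; field_simp
  have h4 : (x.val : ℤ) = ((3 ^ n : ℕ) : ℤ) * m := by
    have : ((x.val : ℤ) : ℝ) = ((((3 ^ n : ℕ) : ℤ) * m : ℤ) : ℝ) := by
      push_cast; exact h3
    exact_mod_cast this
  have h5 : x.val < 3 ^ n := ZMod.val_lt x
  have h6 : x.val ≠ 0 := by
    intro h; exact hx ((ZMod.val_eq_zero x).1 h)
  have h7 : (3 ^ n) ∣ x.val := by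
    have : ((3 ^ n : ℕ) : ℤ) ∣ (x.val : ℤ) := ⟨m, h4⟩
    exact_mod_cast this
  exact h6 (Nat.eq_zero_of_dvd_of_lt h7 h5)

theorem chi_add_Yz (n : ℕ) (x y : ZMod (3 ^ n)) : chi n (x + y) = chi n x * chi n y := by
  have h := chi_int_Yz n (x + y) ((x.val : ℤ) + (y.val : ℤ)) (by
    push_cast
    rw [ZMod.natCast_val, ZMod.natCast_val, ZMod.cast_id', id, id])
  rw [← h]
  unfold chi
  rw [← ev_add]
  congr 1
  push_cast
  ring

theorem hYz : StYz := by
  refine ⟨two_hf_Yz, ?_, ?_, chi_add_Yz, ?_, ?_, ?_, ?_, ?_, ?_⟩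
  · intro n a b
    unfold Yz
    rw [cc_append, List.length_append, pow_add]
    push_cast
    have h := two_hf_pow_Yz n b.length
    linear_combination ((cc a : ZMod (3 ^ n)) * hf n ^ a.length) * h
  · intro n a l ha
    unfold Yz
    rw [cc_rep, cc_true]
    have hl : (List.replicate (a - 1) false ++ true :: l).length = a + l.length := by
      simp only [List.length_append, List.length_replicate, List.length_cons]
      omega
    rw [hl, pow_add]
    push_cast
    have h := two_hf_pow_Yz n l.length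
    linear_combination (hf n ^ a) * h
  · intro n k x
    have h := chi_int_Yz n ((k : ZMod (3 ^ n)) * x) ((k : ℤ) * (x.val : ℤ)) (by
      push_cast
      rw [ZMod.natCast_val, ZMod.cast_id', id])
    rw [← h]
    unfold chi
    rw [← ev_nat_mul_Yz]
    congr 1
    push_cast
    ring
  · intro n x
    exact norm_ev _
  · intro n x p
    rfl
  · intro n x b a
    have h := val_int_Yz n (27 * (x * hf n ^ (b + a))) (27 * ((x * hf n ^ (b + a)).val : ℤ)) (by
      push_cast
      rw [ZMod.natCast_val, ZMod.cast_id', id])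
    obtain ⟨m, hm⟩ := h
    refine ⟨-m, ?_⟩
    unfold Xf
    have h2 : 27 * hf n ^ b * x * hf n ^ a = 27 * (x * hf n ^ (b + a)) := by
      rw [pow_add]; ring
    rw [h2]
    push_cast at hm ⊢
    rw [mul_div_assoc] at hm
    linarith
  · intro n x hx
    have h1 : ∑ r : ZMod (3 ^ n), chi n (x * r) = (∑ r : ZMod (3 ^ n), chi n (x * r)) * chi n x := by
      rw [sum_mul]
      rw [← Equiv.sum_comp (Equiv.addRight (1 : ZMod (3 ^ n))) (fun r => chi n (x * r))]
      refine sum_congr rfl fun r _ => ?_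
      rw [← chi_add_Yz]
      congr 1
      simp only [Equiv.coe_addRight]
      ring
    have h2 : (∑ r : ZMod (3 ^ n), chi n (x * r)) * (1 - chi n x) = 0 := by
      rw [mul_sub, mul_one, ← h1, sub_self]
    rcases mul_eq_zero.1 h2 with h | h
    · exact h
    · exact absurd (sub_eq_zero.1 h).symm (chi_ne_one_Yz n x hx)
  · intro n x a
    have h := val_int_Yz n (x * hf n ^ a) (2 * ((x * hf n ^ (a + 1)).val : ℤ)) (by
      push_cast
      rw [ZMod.natCast_val, ZMod.cast_id', id, pow_succ]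
      linear_combination (x * hf n ^ a) * two_hf_Yz n)
    obtain ⟨m, hm⟩ := h
    refine ⟨m, ?_⟩
    unfold Xf
    rw [← hm]
    push_cast
    ring

end Pool.Agent.Helper91.ND
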