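import Pool.Agent.Helper76.ND.StD

/-!
# Project ND, module Mi: mixing, assembly
-/

set_option autoImplicit false

noncomputable section

namespace Pool.Agent.Helper91.ND

open Pool.Agent.Helper76.ND Finset

/-- sums of convolutions -/
theorem conv_Mi (A w : ℕ → ℝ) (B : ℝ) (hA : ∀ s, 0 ≤ A s)
    (hw : ∀ L, ∑ j ∈ range L, w j ≤ B) (K : ℕ) :
    ∑ s ∈ range K, ∑ s' ∈ range (s + 1), A s' * w (s - s') ≤ B * ∑ s ∈ range K, A s := by
  have h1 : ∑ s ∈ range K, ∑ s' ∈ range (s + 1), A s' * w (s - s') =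
      ∑ s' ∈ range K, ∑ s ∈ Ico s' K, A s' * w (s - s') := by
    simp only [range_eq_Ico]
    exact (sum_Ico_Ico_comm 0 K (fun i j => A i * w (j - i))).symm
  rw [h1, mul_sum]
  refine sum_le_sum fun s' _ => ?_
  rw [← mul_sum, sum_Ico_eq_sum_range, mul_comm]
  refine mul_le_mul_of_nonneg_right ?_ (hA s')
  simp only [Nat.add_sub_cancel_left]
  exact hw _

/-- sums of functions of period `3 ^ m` -/
theorem psum_Mi (hPe : StPe) (g : ℕ → ℝ) (m k : ℕ) (hmk : m ≤ k)
    (hg : ∀ M, g (M + 3 ^ m) = g M) :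
    ∑ M ∈ range (3 ^ k), g M / 3 ^ (k - m) = ∑ M ∈ range (3 ^ m), g M := by
  have h5 : 3 ^ k = 3 ^ m * 3 ^ (k - m) := by rw [← pow_add]; congr 1; omega
  rw [← sum_div, h5, hPe.1 g (3 ^ m) (3 ^ (k - m)) hg]
  push_cast
  field_simp

theorem geo_Mi (L : ℕ) : ∑ j ∈ range L, (1 : ℝ) / 2 ^ j ≤ 2 := by
  have h : ∑ j ∈ range L, (1 : ℝ) / 2 ^ j = 2 - 2 / 2 ^ L := by
    induction L with
    | zero => norm_num
    | succ L ih => rw [sum_range_succ, ih, pow_succ]; field_simp; ring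
  rw [h]
  have : (0 : ℝ) ≤ 2 / 2 ^ L := by positivity
  linarith

theorem pow8_Mi (m : ℕ) (hm : 1 ≤ m) : (4 : ℝ) / 8 ^ m ≤ 4 * (m : ℝ) ^ (-(1 / 200) : ℝ) := by
  have h1 : (m : ℝ) ≤ 8 ^ m := by
    have : m < 8 ^ m := Nat.lt_pow_self (by norm_num)
    exact_mod_cast this.le
  have hm1 : (1 : ℝ) ≤ m := by exact_mod_cast hm
  have hm0 : (0 : ℝ) < m := by linarith
  have h2 : (m : ℝ) ^ (-1 : ℝ) ≤ (m : ℝ) ^ (-(1 / 200) : ℝ) :=
    Real.rpow_le_rpow_of_exponent_le hm1 (by norm_num)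
  rw [Real.rpow_neg_one] at h2
  have h3 : (4 : ℝ) / 8 ^ m ≤ 4 * (m : ℝ)⁻¹ := by
    rw [div_eq_mul_inv]
    exact mul_le_mul_of_nonneg_left (inv_anti₀ hm0 h1) (by norm_num)
  linarith

theorem hMi (hTr : StTr) (hNs : StNs) (hPe : StPe) (hQs : StQs) (hCh : StCh) (hIn : StIn) :
    StMi := by
  obtain ⟨hp1, hp2, hp3, hs4, hs5, hs6, _⟩ := hNs
  constructor
  · intro m k K hmk
    have h1 : ∀ t, Del m k t ≤ 2 * q t k := by
      intro t
      unfold Del
      have h2 : ∀ M, |nt k t M - q t k * pim m M / 3 ^ (k - m)| ≤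
          nt k t M + q t k * (pim m M / 3 ^ (k - m)) := by
        intro M
        have ha := nt_nonneg k t M
        have hb : 0 ≤ q t k * (pim m M / 3 ^ (k - m)) :=
          mul_nonneg (q_nonneg _ _) (div_nonneg (pim_nonneg _ _) (by positivity))
        rw [mul_div_assoc]
        rw [abs_le]
        constructor <;> linarith
      refine (sum_le_sum fun M _ => h2 M).trans ?_
      rw [sum_add_distrib, ← mul_sum, hs5, psum_Mi hPe (pim m) m k hmk (hp3 m)]
      have := mul_le_mul_of_nonneg_left (hs6 m) (q_nonneg t k)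
      linarith
    refine (sum_le_sum fun t _ => h1 t).trans ?_
    rw [← mul_sum]
    have := hQs.2.1 k K
    linarith
  · obtain ⟨C1, hC1, h1⟩ := hCh
    obtain ⟨C2, hC2, h2⟩ := hIn
    refine ⟨2 * (C1 + C2 + 4), by positivity, ?_⟩
    intro m k K hm hmk
    have hmk' : m ≤ k := by omega
    set A : ℕ → ℝ := fun s => ∑ M ∈ range (3 ^ k),
      |ns k k s M - qs k s * pim m M / 3 ^ (k - m)| with hA
    have hA0 : ∀ s, 0 ≤ A s := fun s => sum_nonneg fun _ _ => abs_nonneg _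
    have hD : ∀ t, Del m k t ≤ ∑ s ∈ range (t + 1), A s * (1 / 2 ^ (t - s)) := by
      intro t
      unfold Del
      have h3 : ∀ M, |nt k t M - q t k * pim m M / 3 ^ (k - m)| ≤
          ∑ s ∈ range (t + 1),
            |ns k k s M - qs k s * pim m M / 3 ^ (k - m)| * (1 / 2 ^ (t - s)) := by
        intro M
        rw [hTr.1 k t M, hTr.2 k t, sum_mul, sum_div, ← sum_sub_distrib]
        refine (abs_sum_le_sum_abs _ _).trans (sum_le_sum fun s _ => ?_)
        have h4 : ns k k s M / 2 ^ (t - s) -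
            qs k s / 2 ^ (t - s) * pim m M / 3 ^ (k - m) =
            (ns k k s M - qs k s * pim m M / 3 ^ (k - m)) * (1 / 2 ^ (t - s)) := by ring
        rw [h4, abs_mul, abs_of_nonneg (show (0 : ℝ) ≤ 1 / 2 ^ (t - s) by positivity)]
      refine (sum_le_sum fun M _ => h3 M).trans (le_of_eq ?_)
      rw [sum_comm]
      refine sum_congr rfl fun s' _ => ?_
      rw [hA]
      simp only
      rw [sum_mul]
    have hS : ∑ t ∈ range K, Del m k t ≤ 2 * ∑ s ∈ range K, A s :=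
      (sum_le_sum fun t _ => hD t).trans
        (conv_Mi A (fun j => 1 / 2 ^ j) 2 hA0 geo_Mi K)
    have hAs : ∀ s, A s ≤ ∑ M ∈ range (3 ^ k), |ns k k s M - ns m k s M / 3 ^ (k - m)| +
        ∑ M ∈ range (3 ^ m), |ns m k s M - qs k s * pim m M| := by
      intro s
      rw [← psum_Mi hPe (fun M => |ns m k s M - qs k s * pim m M|) m k hmk' (fun M => by
        rw [hp1, hp3])]
      rw [← sum_add_distrib]
      refine sum_le_sum fun M _ => ?_
      have h4 : |ns m k s M - qs k s * pim m M| / 3 ^ (k - m) =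
          |(ns m k s M - qs k s * pim m M) / 3 ^ (k - m)| := by
        rw [abs_div, abs_of_pos (show (0 : ℝ) < 3 ^ (k - m) by positivity)]
      rw [h4]
      refine le_trans (le_of_eq ?_) (abs_add_le _ _)
      congr 1
      ring
    have hT : ∑ s ∈ range K, A s ≤ C1 * (m : ℝ) ^ (-(1 / 200) : ℝ) +
        (C2 * m / Real.sqrt k + 4 / 8 ^ m) := by
      refine (sum_le_sum fun s _ => hAs s).trans ?_
      rw [sum_add_distrib]
      exact add_le_add (h1 m k K hm hmk') (h2 m k K hm hmk)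
    have h8 := pow8_Mi m hm
    have hx : 0 ≤ (m : ℝ) ^ (-(1 / 200) : ℝ) := by positivity
    have hy : 0 ≤ (m : ℝ) / Real.sqrt k := by positivity
    have hz : C2 * m / Real.sqrt k = C2 * ((m : ℝ) / Real.sqrt k) := by ring
    rw [hz] at hT
    have e1 : 0 ≤ C1 * ((m : ℝ) / Real.sqrt k) := mul_nonneg hC1.le hy
    have e2 : 0 ≤ C2 * (m : ℝ) ^ (-(1 / 200) : ℝ) := mul_nonneg hC2.le hx
    nlinarith [hS, hT, h8, hx, hy, e1, e2]

end Pool.Agent.Helper91.ND
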