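import Pool.Agent.Helper76.ND.StD

/-!
# Project ND, module Tw: transitivity
-/

set_option autoImplicit false

noncomputable section

namespace Pool.Agent.Helper91.ND

open Pool.Agent.Helper76.ND Finset

/-- sums of convolutions -/
theorem conv_Tw (A w : ℕ → ℝ) (B : ℝ) (hA : ∀ s, 0 ≤ A s)
    (hw : ∀ L, ∑ j ∈ range L, w j ≤ B) (K : ℕ) :
    ∑ s ∈ range K, ∑ s' ∈ range (s + 1), A s' * w (s - s') ≤ B * ∑ s ∈ range K, A s := by
  have h1 : ∑ s ∈ range K, ∑ s' ∈ range (s + 1), A s' * w (s - s') =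
      ∑ s' ∈ range K, ∑ s ∈ Ico s' K, A s' * w (s - s') := by
    simp only [range_eq_Ico]
    exact (sum_Ico_Ico_comm 0 K (fun i j => A i * w (j - i))).symm
  rw [h1, mul_sum]
  refine sum_le_sum fun s' _ => ?_
  rw [← mul_sum, sum_Ico_eq_sum_range, mul_comm]
  refine mul_le_mul_of_nonneg_right ?_ (hA s')
  simp only [Nat.add_sub_cancel_left]
  exact hw _

theorem period_Tw (g : ℕ → ℝ) (P : ℕ) (h : ∀ M, g (M + P) = g M) (Q M : ℕ) :
    g (M + P * Q) = g M := by
  induction Q with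
  | zero => simp
  | succ Q ih => rw [Nat.mul_succ, ← Nat.add_assoc, h, ih]

theorem ns_period_Tw (hNs : StNs) (m e n s M : ℕ) (h : m ≤ e) :
    ns m n s (M + 3 ^ e) = ns m n s M := by
  have h1 : 3 ^ e = 3 ^ m * 3 ^ (e - m) := by rw [← pow_add]; congr 1; omega
  rw [h1]
  exact period_Tw (fun M => ns m n s M) (3 ^ m) (fun M => hNs.1 m n s M) _ _

theorem hTw (hNs : StNs) (hPe : StPe) (hSp : StSp) (hQs : StQs) : StTw := by
  intro m e n K hme hen
  have h3 : (3 : ℝ) ^ (n - m) = 3 ^ (e - m) * 3 ^ (n - e) := by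
    rw [← pow_add]; congr 1; omega
  set g : ℕ → ℕ → ℝ := fun s M => |ns e n s M - ns m n s M / 3 ^ (e - m)| with hg
  have hgp : ∀ s M, g s (M + 3 ^ e) = g s M := by
    intro s M
    simp only [hg]
    rw [hNs.1 e n s M, ns_period_Tw hNs m e n s M hme]
  have h1 : ∀ s M, |ns n n s M - ns m n s M / 3 ^ (n - m)| ≤
      |ns n n s M - ns e n s M / 3 ^ (n - e)| + g s M / 3 ^ (n - e) := by
    intro s M
    have h4 : g s M / 3 ^ (n - e) =
        |(ns e n s M - ns m n s M / 3 ^ (e - m)) / 3 ^ (n - e)| := by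
      rw [abs_div, abs_of_pos (show (0 : ℝ) < 3 ^ (n - e) by positivity)]
    rw [h4]
    refine le_trans (le_of_eq ?_) (abs_add_le _ _)
    congr 1
    rw [h3]
    field_simp
    ring
  have h2 : ∀ s, ∑ M ∈ range (3 ^ n), g s M / 3 ^ (n - e) = ∑ M ∈ range (3 ^ e), g s M := by
    intro s
    have h5 : 3 ^ n = 3 ^ e * 3 ^ (n - e) := by rw [← pow_add]; congr 1; omega
    rw [← sum_div, h5, hPe.1 (g s) (3 ^ e) (3 ^ (n - e)) (hgp s)]
    push_cast
    field_simp
  set A : ℕ → ℝ := fun s => ∑ M ∈ range (3 ^ e), |ns e e s M - ns m e s M / 3 ^ (e - m)| with hA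
  have hA0 : ∀ s, 0 ≤ A s := fun s => sum_nonneg fun _ _ => abs_nonneg _
  have h6 : ∀ s, ∑ M ∈ range (3 ^ e), g s M ≤
      ∑ s' ∈ range (s + 1), A s' * qs (n - e) (s - s') := by
    intro s
    have h7 : ∀ M, g s M ≤ ∑ s' ∈ range (s + 1),
        |ns e e s' M - ns m e s' M / 3 ^ (e - m)| * qs (n - e) (s - s') := by
      intro M
      simp only [hg]
      rw [hSp e e n s M le_rfl hen, hSp m e n s M hme hen, sum_div, ← sum_sub_distrib]
      refine (abs_sum_le_sum_abs _ _).trans (sum_le_sum fun s' _ => ?_)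
      rw [mul_div_right_comm, ← sub_mul, abs_mul, abs_of_nonneg (qs_nonneg _ _)]
    refine (sum_le_sum fun M _ => h7 M).trans (le_of_eq ?_)
    rw [sum_comm]
    refine sum_congr rfl fun s' _ => ?_
    rw [hA]
    simp only
    rw [sum_mul]
  calc ∑ s ∈ range K, ∑ M ∈ range (3 ^ n), |ns n n s M - ns m n s M / 3 ^ (n - m)|
      ≤ ∑ s ∈ range K, ∑ M ∈ range (3 ^ n), (|ns n n s M - ns e n s M / 3 ^ (n - e)| +
          g s M / 3 ^ (n - e)) := sum_le_sum fun s _ => sum_le_sum fun M _ => h1 s M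
    _ = ∑ s ∈ range K, ∑ M ∈ range (3 ^ n), |ns n n s M - ns e n s M / 3 ^ (n - e)| +
          ∑ s ∈ range K, ∑ M ∈ range (3 ^ e), g s M := by
        rw [← sum_add_distrib]
        refine sum_congr rfl fun s _ => ?_
        rw [sum_add_distrib, h2]
    _ ≤ ∑ s ∈ range K, ∑ M ∈ range (3 ^ n), |ns n n s M - ns e n s M / 3 ^ (n - e)| +
          ∑ s ∈ range K, A s := by
        refine add_le_add le_rfl ?_
        refine (sum_le_sum fun s _ => h6 s).trans ?_
        have := conv_Tw A (fun j => qs (n - e) j) 1 hA0 (fun L => hQs.1 (n - e) L) K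
        rwa [one_mul] at this

end Pool.Agent.Helper91.ND
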