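import Pool.Agent.Helper76.ND.StD

/-!
# Project ND, module Wb: splitting off a block with three heads
-/

set_option autoImplicit false

noncomputable section

namespace Pool.Agent.Helper91.ND

open Pool.Agent.Helper76.ND Finset

theorem reidx_Wb (s : ℕ) (F : ℕ → ℕ → ℕ → ℝ) :
    ∑ a1 ∈ Icc 1 s, ∑ a2 ∈ Icc 1 (s - a1), ∑ a3 ∈ Icc 1 (s - a1 - a2),
      F a1 (a1 + a2) (a1 + a2 + a3) =
    ∑ b ∈ Icc 3 s, ∑ p ∈ Icc 1 (b - 1), ∑ r ∈ Icc (p + 1) (b - 1), F p r b := by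
  simp only [Finset.sum_sigma']
  refine Finset.sum_nbij' (fun x => ⟨x.1 + x.2.1 + x.2.2, x.1, x.1 + x.2.1⟩)
    (fun y => ⟨y.2.1, y.2.2 - y.2.1, y.1 - y.2.2⟩) ?_ ?_ ?_ ?_ ?_
  · rintro ⟨a, b, c⟩ h
    simp only [mem_sigma, mem_Icc] at h ⊢
    omega
  · rintro ⟨a, b, c⟩ h
    simp only [mem_sigma, mem_Icc] at h ⊢
    omega
  · rintro ⟨a, b, c⟩ h
    simp only [mem_sigma, mem_Icc] at h ⊢
    have h1 : a + b - a = b := by omega
    have h2 : a + b + c - (a + b) = c := by omega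
    rw [h1, h2]
  · rintro ⟨a, b, c⟩ h
    simp only [mem_sigma, mem_Icc] at h ⊢
    have h1 : b + (c - b) + (a - c) = a := by omega
    have h2 : b + (c - b) = c := by omega
    rw [h1, h2]
  · rintro ⟨a, b, c⟩ h
    rfl

theorem first_Wb (hYz : StYz) (n s k : ℕ) (G : ZMod (3 ^ n) → ℝ) :
    ∑ l ∈ (W s).filter (fun l => hd l = k + 1 ∧ te l = true), G (Yz n l) =
      ∑ a ∈ Icc 1 s, ∑ l ∈ (W (s - a)).filter (fun l => hd l = k ∧ te l = true),
        G (hf n ^ a * (1 + 3 * Yz n l)) := by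
  rw [sum_first]
  refine sum_congr rfl fun a ha => sum_congr rfl fun l _ => ?_
  rw [mem_Icc] at ha
  rw [hYz.2.2.1 n a l ha.1]

theorem hWb (hYz : StYz) : StWb := by
  intro n s k G
  rw [first_Wb hYz n s (k + 2) G]
  have h1 : ∀ a1 ∈ Icc 1 s,
      ∑ l ∈ (W (s - a1)).filter (fun l => hd l = k + 2 ∧ te l = true),
        G (hf n ^ a1 * (1 + 3 * Yz n l)) =
      ∑ a2 ∈ Icc 1 (s - a1), ∑ a3 ∈ Icc 1 (s - a1 - a2),
        ∑ l ∈ (W (s - (a1 + a2 + a3))).filter (fun l => hd l = k ∧ te l = true),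
          G (hf n ^ a1 + 3 * hf n ^ (a1 + a2) + 9 * hf n ^ (a1 + a2 + a3) +
            27 * hf n ^ (a1 + a2 + a3) * Yz n l) := by
    intro a1 _
    rw [first_Wb hYz n (s - a1) (k + 1) (fun y => G (hf n ^ a1 * (1 + 3 * y)))]
    refine sum_congr rfl fun a2 _ => ?_
    rw [first_Wb hYz n (s - a1 - a2) k
      (fun y => G (hf n ^ a1 * (1 + 3 * (hf n ^ a2 * (1 + 3 * y)))))]
    refine sum_congr rfl fun a3 _ => ?_
    rw [show s - a1 - a2 - a3 = s - (a1 + a2 + a3) by omega]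
    refine sum_congr rfl fun l _ => ?_
    congr 1
    rw [pow_add, pow_add, pow_add]
    ring
  rw [sum_congr rfl h1]
  exact reidx_Wb s (fun p r b =>
    ∑ l ∈ (W (s - b)).filter (fun l => hd l = k ∧ te l = true),
      G (hf n ^ p + 3 * hf n ^ r + 9 * hf n ^ b + 27 * hf n ^ b * Yz n l))

end Pool.Agent.Helper91.ND
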