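import Pool.Agent.Helper76.ND.StD

/-!
# Project ND, module Wc: Fourier transform of a block
-/

set_option autoImplicit false

noncomputable section

namespace Pool.Agent.Helper91.ND

open Pool.Agent.Helper76.ND Finset

theorem Fh_shift_Wc (hYz : StYz) (n : ℕ) (c : ZMod (3 ^ n) → ℝ) (a ξ : ZMod (3 ^ n)) :
    ∑ r, (c (r - a) : ℂ) * chi n (ξ * r) = Fh n c ξ * chi n (ξ * a) := by
  unfold Fh
  rw [sum_mul, ← Equiv.sum_comp (Equiv.addRight a) (fun r => (c (r - a) : ℂ) * chi n (ξ * r))]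
  refine sum_congr rfl fun r _ => ?_
  simp only [Equiv.coe_addRight, add_sub_cancel_right]
  rw [mul_add, hYz.2.2.2.1, mul_assoc]

theorem ev_three_Wc (x : ℝ) : ev (3 * x) = ev x ^ 3 := by
  rw [show 3 * x = x + x + x by ring, ev_add, ev_add]
  ring

theorem chi_block_Wc (hYz : StYz) (n b p r : ℕ) (u ξ : ZMod (3 ^ n)) :
    chi n (ξ * (u * (hf n ^ p + 3 * hf n ^ r + 9 * hf n ^ b))) =
      ev (Xf n (u * ξ) p + 3 * Xf n (u * ξ) r) * ev (Xf n (u * ξ) b) ^ 9 := by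
  have h1 : ξ * (u * (hf n ^ p + 3 * hf n ^ r + 9 * hf n ^ b)) =
      (u * ξ) * hf n ^ p + ((3 : ℕ) : ZMod (3 ^ n)) * ((u * ξ) * hf n ^ r) +
        ((9 : ℕ) : ZMod (3 ^ n)) * ((u * ξ) * hf n ^ b) := by
    push_cast
    ring
  rw [h1, hYz.2.2.2.1, hYz.2.2.2.1, hYz.2.2.2.2.1, hYz.2.2.2.2.1, hYz.2.2.2.2.2.2.1,
    hYz.2.2.2.2.2.2.1, hYz.2.2.2.2.2.2.1, ev_add, ev_three_Wc]

theorem Fh_cb_Wc (hYz : StYz) (n b : ℕ) (c : ZMod (3 ^ n) → ℝ) (u ξ : ZMod (3 ^ n)) :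
    Fh n (cb n b c u) ξ = Fh n c ξ *
      ((∑ p ∈ Icc 1 (b - 1), ∑ r' ∈ Icc (p + 1) (b - 1),
        ev (Xf n (u * ξ) p + 3 * Xf n (u * ξ) r')) * ev (Xf n (u * ξ) b) ^ 9 /
        ((b - 1).choose 2 : ℂ)) := by
  have h1 : Fh n (cb n b c u) ξ = (∑ p ∈ Icc 1 (b - 1), ∑ r' ∈ Icc (p + 1) (b - 1),
      ∑ r, (c (r - u * (hf n ^ p + 3 * hf n ^ r' + 9 * hf n ^ b)) : ℂ) * chi n (ξ * r)) /
        ((b - 1).choose 2 : ℂ) := by
    unfold Fh cb
    rw [sum_div]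
    have : ∀ r : ZMod (3 ^ n), (((∑ p ∈ Icc 1 (b - 1), ∑ r' ∈ Icc (p + 1) (b - 1),
        c (r - u * (hf n ^ p + 3 * hf n ^ r' + 9 * hf n ^ b))) / ((b - 1).choose 2 : ℝ) : ℝ) : ℂ) *
          chi n (ξ * r) =
        ∑ p ∈ Icc 1 (b - 1), ∑ r' ∈ Icc (p + 1) (b - 1),
          (c (r - u * (hf n ^ p + 3 * hf n ^ r' + 9 * hf n ^ b)) : ℂ) * chi n (ξ * r) /
            ((b - 1).choose 2 : ℂ) := by
      intro r
      push_cast
      rw [div_mul_eq_mul_div, sum_mul, sum_div]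
      refine sum_congr rfl fun p _ => ?_
      rw [sum_mul, sum_div]
    rw [sum_congr rfl fun r _ => this r, sum_comm]
    refine sum_congr rfl fun p _ => ?_
    rw [sum_comm, sum_div]
    refine sum_congr rfl fun r' _ => ?_
    rw [sum_div]
  rw [h1, mul_div_assoc']
  congr 1
  rw [← mul_assoc, mul_sum, sum_mul]
  refine sum_congr rfl fun p _ => ?_
  rw [mul_sum, sum_mul]
  refine sum_congr rfl fun r' _ => ?_
  rw [Fh_shift_Wc hYz, chi_block_Wc hYz, mul_assoc]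

theorem hWc (hYz : StYz) (hWb : StWb) : StWc := by
  constructor
  · intro n k s c u r
    unfold Rn
    rw [hWb n s k (fun y => c (r - u * y)), sum_div]
    refine sum_congr rfl fun b hb => ?_
    rw [mem_Icc] at hb
    have h2 : ∀ l : List Bool, cb n b c u (r - 27 * hf n ^ b * u * Yz n l) =
        (∑ p ∈ Icc 1 (b - 1), ∑ r' ∈ Icc (p + 1) (b - 1),
          c (r - u * (hf n ^ p + 3 * hf n ^ r' + 9 * hf n ^ b + 27 * hf n ^ b * Yz n l))) /
            ((b - 1).choose 2 : ℝ) := by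
      intro l
      unfold cb
      congr 1
      refine sum_congr rfl fun p _ => sum_congr rfl fun r' _ => ?_
      congr 1
      ring
    rw [sum_congr rfl fun l _ => h2 l, ← sum_div]
    have h3 : ∑ l ∈ (W (s - b)).filter (fun l => hd l = k ∧ te l = true),
        ∑ p ∈ Icc 1 (b - 1), ∑ r' ∈ Icc (p + 1) (b - 1),
          c (r - u * (hf n ^ p + 3 * hf n ^ r' + 9 * hf n ^ b + 27 * hf n ^ b * Yz n l)) =
        ∑ p ∈ Icc 1 (b - 1), ∑ r' ∈ Icc (p + 1) (b - 1),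
          ∑ l ∈ (W (s - b)).filter (fun l => hd l = k ∧ te l = true),
          c (r - u * (hf n ^ p + 3 * hf n ^ r' + 9 * hf n ^ b + 27 * hf n ^ b * Yz n l)) := by
      rw [sum_comm]
      refine sum_congr rfl fun p _ => ?_
      rw [sum_comm]
    rw [h3]
    unfold P3
    have h4 : ((b - 1).choose 2 : ℝ) ≠ 0 := by
      have : 0 < (b - 1).choose 2 := Nat.choose_pos (by omega)
      positivity
    have h5 : (2 : ℝ) ^ s = 2 ^ b * 2 ^ (s - b) := by
      rw [← pow_add]; congr 1; omega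
    rw [h5]
    field_simp
  · intro n b c u ξ _
    rw [Fh_cb_Wc hYz, norm_mul, mul_pow]
    congr 1
    rw [norm_div, norm_mul, norm_pow, norm_ev, one_pow, mul_one, div_pow]
    unfold fb
    congr 2
    rw [Complex.norm_natCast]

end Pool.Agent.Helper91.ND
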